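import Mathlib
import Pool.Agent.N178.HX.StmG
import Pool.Agent.R915.H2

/-!
# Families in independent blocks (task COV of project GHC3)
-/

set_option autoImplicit false
set_option linter.unusedSectionVars false

namespace Pool.Agent.N492.HX

open Finset Module NumberField Pool.Agent.N178.HX
open Pool.Agent.H204R3.CM (IsCMType)
open Pool.Agent.W547.KB (CMPair CMAV single)
open Pool.Agent.W547.LN (SameType)

noncomputable section

/-! ### The two forms of the sums property -/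

section spf
variable {K : Type} [Fintype K] (T : K → CMPair)

/-- the function of an embedding -/
def fn (s : Σ k, ((T k).E →+* ℂ)) : (ℂ ≃+* ℂ) → ℤ := fun σ => sg (T s.1) σ s.2

theorem sum2 (F : ∀ k, ((T k).E →+* ℂ) → ℤ) :
    ∑ k, ∑ φ, F k φ = ∑ s : Σ k, ((T k).E →+* ℂ), F s.1 s.2 := by
  rw [Fintype.sum_sigma]

theorem sum2N (F : ∀ k, ((T k).E →+* ℂ) → ℕ) :
    ∑ k, ∑ φ, F k φ = ∑ s : Σ k, ((T k).E →+* ℂ), F s.1 s.2 := by
  rw [Fintype.sum_sigma]

theorem mem_Fn (B : Set K) (g : (ℂ ≃+* ℂ) → ℤ) :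
    g ∈ Fn T B ↔ ∃ s : Σ k, ((T k).E →+* ℂ), s.1 ∈ B ∧ g = fn T s := by
  constructor
  · rintro ⟨k, hk, φ, rfl⟩
    exact ⟨⟨k, φ⟩, hk, rfl⟩
  · rintro ⟨⟨k, φ⟩, hk, rfl⟩
    exact ⟨k, hk, φ, rfl⟩

/-- the elements of the closure -/
theorem closure_Fn (B : Set K) {f : (ℂ ≃+* ℂ) → ℤ} (hf : f ∈ AddSubgroup.closure (Fn T B)) :
    ∃ m : (Σ k, ((T k).E →+* ℂ)) → ℤ, (∀ s, s.1 ∉ B → m s = 0) ∧ ∑ s, m s • fn T s = f := by
  classical
  induction hf using AddSubgroup.closure_induction with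
  | mem g hg =>
    obtain ⟨s, hs, rfl⟩ := (mem_Fn T B g).1 hg
    refine ⟨fun t => if t = s then 1 else 0, fun t ht => if_neg fun h : t = s => ht (by
      rw [h]
      exact hs), ?_⟩
    refine (Finset.sum_eq_single s (fun t _ ht => ?_) (fun h => absurd (mem_univ s) h)).trans ?_
    · show (if t = s then (1 : ℤ) else 0) • fn T t = 0
      rw [if_neg ht, zero_smul]
    · show (if s = s then (1 : ℤ) else 0) • fn T s = fn T s
      rw [if_pos rfl, one_smul]
  | zero => exact ⟨fun _ => 0, fun _ _ => rfl, sum_eq_zero fun s _ => zero_smul _ _⟩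
  | add f g _ _ ihf ihg =>
    obtain ⟨m, hm, rfl⟩ := ihf
    obtain ⟨m', hm', rfl⟩ := ihg
    refine ⟨fun s => m s + m' s, fun s hs => by
      show m s + m' s = 0
      rw [hm s hs, hm' s hs, add_zero], ?_⟩
    rw [← sum_add_distrib]
    exact sum_congr rfl fun s _ => add_smul _ _ _
  | neg f _ ihf =>
    obtain ⟨m, hm, rfl⟩ := ihf
    refine ⟨fun s => -m s, fun s hs => by
      show -m s = 0
      rw [hm s hs, neg_zero], ?_⟩
    rw [← sum_neg_distrib]
    exact sum_congr rfl fun s _ => neg_smul _ _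

theorem mem_closure_Fn (B : Set K) (m : (Σ k, ((T k).E →+* ℂ)) → ℤ) (hm : ∀ s, s.1 ∉ B → m s = 0) :
    ∑ s, m s • fn T s ∈ AddSubgroup.closure (Fn T B) := by
  refine AddSubgroup.sum_mem _ fun s _ => ?_
  by_cases hs : s.1 ∈ B
  · exact AddSubgroup.zsmul_mem _ (AddSubgroup.subset_closure ((mem_Fn T B _).2 ⟨s, hs, rfl⟩)) _
  · rw [hm s hs, zero_smul]
    exact AddSubgroup.zero_mem _

/-- lists as multiplicities -/
theorem list_Fn (B : Set K) (l : List ((ℂ ≃+* ℂ) → ℤ)) (hl : ∀ g ∈ l, g ∈ Fn T B) :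
    ∃ a : (Σ k, ((T k).E →+* ℂ)) → ℕ, (∀ s, s.1 ∉ B → a s = 0) ∧ ∑ s, a s = l.length ∧
      ∑ s, a s • fn T s = l.sum := by
  classical
  induction l with
  | nil => exact ⟨fun _ => 0, fun _ _ => rfl, by simp, by simp⟩
  | cons g l ih =>
    obtain ⟨a, h1, h2, h3⟩ := ih fun g hg => hl g (List.mem_cons_of_mem _ hg)
    obtain ⟨s, hs, rfl⟩ := (mem_Fn T B g).1 (hl g List.mem_cons_self)
    refine ⟨fun t => a t + if t = s then 1 else 0, fun t ht => ?_, ?_, ?_⟩
    · show a t + (if t = s then 1 else 0) = 0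
      rw [h1 t ht, if_neg fun h : t = s => ht (by
        rw [h]
        exact hs)]
    · rw [sum_add_distrib, h2, List.length_cons, Finset.sum_ite_eq' univ s, if_pos (mem_univ s)]
    · rw [List.sum_cons, ← h3, ← Finset.sum_congr rfl fun t _ => (add_smul (a t)
        (if t = s then 1 else 0) (fn T t)).symm, sum_add_distrib, add_comm]
      congr 1
      rw [Finset.sum_eq_single s (fun t _ ht => by rw [if_neg ht, zero_smul])
        (fun h => absurd (mem_univ s) h), if_pos rfl, one_smul]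

/-- multiplicities as lists -/
theorem list_of (B : Set K) (a : (Σ k, ((T k).E →+* ℂ)) → ℕ) (ha : ∀ s, s.1 ∉ B → a s = 0)
    (S : Finset (Σ k, ((T k).E →+* ℂ))) :
    ∃ l : List ((ℂ ≃+* ℂ) → ℤ), (∀ g ∈ l, g ∈ Fn T B) ∧ l.length = ∑ s ∈ S, a s ∧
      l.sum = ∑ s ∈ S, a s • fn T s := by
  classical
  induction S using Finset.induction_on with
  | empty => exact ⟨[], by simp, by simp, by simp⟩
  | insert s S hs ih =>
    obtain ⟨l, h1, h2, h3⟩ := ih
    refine ⟨List.replicate (a s) (fn T s) ++ l, fun g hg => ?_, ?_, ?_⟩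
    · rw [List.mem_append] at hg
      rcases hg with hg | hg
      · rw [List.mem_replicate] at hg
        rw [mem_Fn]
        refine ⟨s, ?_, hg.2⟩
        by_contra hsB
        exact hg.1 (ha s hsB)
      · exact h1 g hg
    · rw [List.length_append, List.length_replicate, h2, sum_insert hs]
    · rw [List.sum_append, List.sum_replicate, h3, sum_insert hs]

end spf

theorem t_SPF : S_SPF := by
  intro K _ T B
  constructor
  · intro h f hf N hN
    obtain ⟨m, hm, rfl⟩ := closure_Fn T B hf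
    have e1 : ∀ σ : ℂ ≃+* ℂ, (∑ s, m s • fn T s) σ = ∑ k, ∑ φ, m ⟨k, φ⟩ * sg (T k) σ φ := by
      intro σ
      rw [sum2 T fun k φ => m ⟨k, φ⟩ * sg (T k) σ φ, Finset.sum_apply]
      exact sum_congr rfl fun s _ => by
        rw [Pi.smul_apply, smul_eq_mul]
        rfl
    obtain ⟨a, h1, h2, h3⟩ := h (fun k φ => m ⟨k, φ⟩) N (fun k hk φ => hm _ hk) fun σ => by
      rw [← e1]
      exact hN σ
    obtain ⟨l, h4, h5, h6⟩ := list_of T B (fun s => a s.1 s.2) (fun s hs => h1 _ hs _) univ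
    refine ⟨l, h4, ?_, ?_⟩
    · rw [h5, ← sum2N T a]
      exact h2
    · rw [h6]
      funext σ
      rw [e1, ← h3, sum2 T fun k φ => (a k φ : ℤ) * sg (T k) σ φ, Finset.sum_apply]
      exact sum_congr rfl fun s _ => by
        rw [Pi.smul_apply, nsmul_eq_mul]
        rfl
  · intro h m N hm hN
    have e1 : ∀ σ : ℂ ≃+* ℂ, (∑ s : Σ k, ((T k).E →+* ℂ), m s.1 s.2 • fn T s) σ =
        ∑ k, ∑ φ, m k φ * sg (T k) σ φ := by
      intro σ
      rw [sum2 T fun k φ => m k φ * sg (T k) σ φ, Finset.sum_apply]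
      exact sum_congr rfl fun s _ => by
        rw [Pi.smul_apply, smul_eq_mul]
        rfl
    obtain ⟨l, h1, h2, h3⟩ := h _ (mem_closure_Fn T B (fun s => m s.1 s.2) fun s hs => hm _ hs _) N
      fun σ => by
        rw [e1]
        exact hN σ
    obtain ⟨a, h4, h5, h6⟩ := list_Fn T B l h1
    refine ⟨fun k φ => a ⟨k, φ⟩, fun k hk φ => h4 _ hk, ?_, fun σ => ?_⟩
    · rw [sum2N T fun k φ => a ⟨k, φ⟩]
      exact h5.trans_le h2
    · rw [← e1, ← h3, ← h6, sum2 T fun k φ => ((a ⟨k, φ⟩ : ℕ) : ℤ) * sg (T k) σ φ,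
        Finset.sum_apply]
      exact sum_congr rfl fun s _ => by
        rw [Pi.smul_apply, nsmul_eq_mul]
        rfl

/-! ### The extended family -/

/-- the blocks which do not need an elliptic curve -/
def NoP {K J : Type} [Fintype K] (T : K → CMPair) (b : K → J) (j : J) : Prop :=
  SignB T {k | b k = j} ∨ (∃ (L : Type) (_ : Field L) (_ : NumberField L) (_ : IsCMField L),
    GalB T {k | b k = j} L ∧ finrank ℚ L ≤ 6) ∨
    ∃ F : Finset K, (∀ k, k ∈ F ↔ k ∈ {k | b k = j}) ∧ ∑ k ∈ F, finrank ℚ (T k).E ≤ 6 ∧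
      SPF (Fn T {k | b k = j})

/-- the blocks with an elliptic curve -/
def WiP {K J : Type} [Fintype K] (T : K → CMPair) (b : K → J) (j : J) (P : CMPair) : Prop :=
  ∃ F : Finset K, (∀ k, k ∈ F ↔ k ∈ {k | b k = j}) ∧ ∑ k ∈ F, finrank ℚ (T k).E ≤ 6 ∧
    finrank ℚ P.E = 2 ∧
    SPF (Fn T {k | b k = j} ∪ Fn (fun _ : Unit => P) Set.univ) ∧
    ∀ σ τ : ℂ ≃+* ℂ, (∀ k ∈ F, ∀ φ : (T k).E →+* ℂ,
      (σ : ℂ →+* ℂ).comp φ = (τ : ℂ →+* ℂ).comp φ) →
      ∀ φ : P.E →+* ℂ, (σ : ℂ →+* ℂ).comp φ = (τ : ℂ →+* ℂ).comp φ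

theorem wiP_of {K J : Type} [Fintype K] (hLOW : S_LOW) (T : K → CMPair) (b : K → J) (j : J)
    (hj : BlkOK T {k | b k = j}) (hn : ¬ NoP T b j) : ∃ P, WiP T b j P := by
  classical
  rcases hj with h | h | ⟨F, hF, hd⟩
  · exact absurd (Or.inl h) hn
  · exact absurd (Or.inr (Or.inl h)) hn
  · have e : (↑F : Set K) = {k | b k = j} := Set.ext fun k => (Finset.mem_coe.trans (hF k))
    rcases hLOW T F hd with h | ⟨P, h1, h2, h3⟩
    · rw [e] at h
      exact absurd (Or.inr (Or.inr ⟨F, hF, hd, h⟩)) hn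
    · rw [e] at h2
      exact ⟨P, F, hF, hd, h1, h2, h3⟩

/-- the new indices -/
abbrev K1 {K J : Type} [Fintype K] (T : K → CMPair) (b : K → J) : Type := {j : J // ¬ NoP T b j}

theorem exists_k {K J : Type} [Fintype K] (T : K → CMPair) (b : K → J) {j : J} (hj : ¬ NoP T b j) :
    ∃ k, b k = j := by
  by_contra hcon
  push Not at hcon
  refine hj (Or.inl fun Ψ _ => ⟨RingEquiv.refl ℂ, fun k hk => absurd hk (hcon k)⟩)

theorem finK1 {K J : Type} [Fintype K] (T : K → CMPair) (b : K → J) : Finite (K1 T b) := by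
  refine Finite.of_injective (fun j : K1 T b => (exists_k T b j.2).choose) fun j j' h => ?_
  have h1 := (exists_k T b j.2).choose_spec
  have h2 := (exists_k T b j'.2).choose_spec
  refine Subtype.ext ?_
  rw [← h1, ← h2]
  exact congrArg b h

section ext
variable {K J : Type} [Fintype K] (T : K → CMPair) (b : K → J) (P : K1 T b → CMPair)

/-- the extended family -/
def T1 : K ⊕ K1 T b → CMPair := Sum.elim T P

/-- the blocks of the extended family -/
def b1 : K ⊕ K1 T b → J := Sum.elim b Subtype.val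

theorem ind1 (hI : IndB T b) (hP : ∀ j : K1 T b, WiP T b j (P j)) : IndB (T1 T b P) (b1 T b) := by
  intro τ
  obtain ⟨σ, hσ⟩ := hI τ
  refine ⟨σ, fun k => ?_⟩
  rcases k with k | j
  · exact hσ k
  · intro φ
    obtain ⟨F, hF, -, -, -, h⟩ := hP j
    refine h σ (τ j) (fun k hk φ => ?_) φ
    have h1 : b k = j := (hF k).1 hk
    rw [← h1]
    exact hσ k φ

theorem Fn_no {j : J} (hj : NoP T b j) :
    Fn (T1 T b P) {k | b1 T b k = j} = Fn T {k | b k = j} := by
  ext f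
  constructor
  · rintro ⟨k, hk, φ, rfl⟩
    rcases k with k | j'
    · exact ⟨k, hk, φ, rfl⟩
    · have h1 : (j' : J) = j := hk
      exact absurd (h1 ▸ hj) j'.2
  · rintro ⟨k, hk, φ, rfl⟩
    exact ⟨Sum.inl k, hk, φ, rfl⟩

theorem Fn_wi (j : K1 T b) : Fn (T1 T b P) {k | b1 T b k = j} =
    Fn T {k | b k = j} ∪ Fn (fun _ : Unit => P j) Set.univ := by
  ext f
  rw [Set.mem_union]
  constructor
  · rintro ⟨k, hk, φ, rfl⟩
    rcases k with k | j'
    · exact Or.inl ⟨k, hk, φ, rfl⟩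
    · have h1 : j' = j := Subtype.ext hk
      subst h1
      exact Or.inr ⟨(), Set.mem_univ _, φ, rfl⟩
  · rintro (⟨k, hk, φ, rfl⟩ | ⟨-, -, φ, rfl⟩)
    · exact ⟨Sum.inl k, hk, φ, rfl⟩
    · exact ⟨Sum.inr j, rfl, φ, rfl⟩

theorem sp1 [Fintype (K1 T b)] (hSPF : S_SPF) (hSPI : S_SPI) (hSPG : S_SPG)
    (hP : ∀ j : K1 T b, WiP T b j (P j)) (j : J) : SP (T1 T b P) {k | b1 T b k = j} := by
  rw [hSPF]
  by_cases hj : NoP T b j
  · rw [Fn_no T b P hj]
    rcases hj with h | ⟨L, i1, i2, i3, h, -⟩ | ⟨-, -, -, h⟩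
    · exact (hSPF _ _).1 (hSPI T _ h)
    · exact (hSPF _ _).1 (hSPG T _ L h)
    · exact h
  · have h := Fn_wi T b P ⟨j, hj⟩
    have h2 : Fn (T1 T b P) {k | b1 T b k = j} =
      Fn T {k | b k = j} ∪ Fn (fun _ : Unit => P ⟨j, hj⟩) Set.univ := h
    rw [h2]
    obtain ⟨-, -, -, -, h3, -⟩ := hP ⟨j, hj⟩
    exact h3

end ext

/-! ### The conditions on the blocks for the Hodge conjecture -/

theorem sameType_refl (A : CMPair) : SameType A A :=
  ⟨RingEquiv.refl _, fun ψ => by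
    have : ψ.comp ((RingEquiv.refl A.E : A.E ≃+* A.E) : A.E →+* A.E) = ψ := by
      ext x
      rfl
    rw [this]⟩

theorem sameType_of_eq {A B : CMPair} (h : A = B) : SameType A B := h ▸ sameType_refl A

open Classical in
/-- exchange of one pair of embeddings -/
def swp {E : Type} [Field E] (Φ : Set (E →+* ℂ)) (φ₀ : E →+* ℂ) : Set (E →+* ℂ) :=
  {φ | if φ = φ₀ ∨ φ = ComplexEmbedding.conjugate φ₀ then φ ∉ Φ else φ ∈ Φ}

theorem conj_conj {E : Type} [Field E] (φ : E →+* ℂ) :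
    ComplexEmbedding.conjugate (ComplexEmbedding.conjugate φ) = φ := star_star φ

theorem swp_cm {E : Type} [Field E] {Φ : Set (E →+* ℂ)} (hΦ : IsCMType Φ) (φ₀ : E →+* ℂ) :
    IsCMType (swp Φ φ₀) := by
  classical
  intro φ
  have h1 : (ComplexEmbedding.conjugate φ = φ₀ ∨
      ComplexEmbedding.conjugate φ = ComplexEmbedding.conjugate φ₀) ↔
      (φ = φ₀ ∨ φ = ComplexEmbedding.conjugate φ₀) := by
    constructor
    · rintro (h | h)
      · right
        rw [← h, conj_conj]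
      · left
        rw [← conj_conj φ, h, conj_conj]
    · rintro (h | h)
      · right
        rw [h]
      · left
        rw [h, conj_conj]
  unfold swp
  rw [Set.mem_ofPred_eq, Set.mem_ofPred_eq]
  by_cases h : φ = φ₀ ∨ φ = ComplexEmbedding.conjugate φ₀
  · rw [if_pos h, if_pos (h1.2 h), hΦ φ, not_not]
  · rw [if_neg h, if_neg fun h' => h (h1.1 h')]
    exact hΦ φ

/-- sign blocks are nondegenerate -/
theorem nondeg {K J : Type} [Fintype K] (T : K → CMPair) (b : K → J) (j : J)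
    [Fintype {k // b k = j}] (h : SignB T {k | b k = j}) :
    Pool.Agent.W547.UB.NonDegenerate ⟨{k // b k = j}, fun k => T k⟩ := by
  classical
  intro a ha k₀ φ₀
  -- the sum over the embeddings for a family of CM types
  have key : ∀ Ψ : ∀ k, Set ((T k).E →+* ℂ), (∀ k, IsCMType (Ψ k)) →
      ∑ k : {k // b k = j}, ∑ φ : (T k).E →+* ℂ, a k φ * (if φ ∈ Ψ k then 1 else -1) = 0 := by
    intro Ψ hΨ
    obtain ⟨σ, hσ⟩ := h Ψ hΨ
    rw [← ha σ]
    refine sum_congr rfl fun k _ => sum_congr rfl fun φ _ => ?_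
    congr 1
    exact if_congr (hσ k k.2 φ) rfl rfl
  have h1 := key (fun k => (T k).Φ) fun k => (T k).isCMType
  have h2 := key (Function.update (fun k => (T k).Φ) k₀ (swp (T k₀).Φ φ₀)) (fun k => by
    by_cases hk : k = k₀
    · subst hk
      rw [Function.update_self]
      exact swp_cm (T k₀).isCMType φ₀
    · rw [Function.update_of_ne hk]
      exact (T k).isCMType)
  rw [← h2] at h1
  have h3 : ∑ φ : (T k₀).E →+* ℂ, a k₀ φ * (if φ ∈ (T k₀).Φ then 1 else -1) =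
      ∑ φ : (T k₀).E →+* ℂ, a k₀ φ * (if φ ∈ swp (T k₀).Φ φ₀ then 1 else -1) := by
    rw [← Finset.add_sum_erase _ _ (mem_univ k₀), ← Finset.add_sum_erase _ (fun k : {k // b k = j} =>
      ∑ φ : (T k).E →+* ℂ, a k φ * (if φ ∈ Function.update (fun k => (T k).Φ) k₀
        (swp (T k₀).Φ φ₀) k then 1 else -1)) (mem_univ k₀), Function.update_self] at h1
    have h4 : ∑ k ∈ univ.erase k₀, ∑ φ : (T (k : K)).E →+* ℂ,
        a k φ * (if φ ∈ (T (k : K)).Φ then (1 : ℤ) else -1) =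
        ∑ k ∈ univ.erase k₀, ∑ φ : (T (k : K)).E →+* ℂ,
        a k φ * (if φ ∈ Function.update (fun k => (T k).Φ) k₀
        (swp (T k₀).Φ φ₀) k then (1 : ℤ) else -1) := by
      refine sum_congr rfl fun k hk => ?_
      have hne : (k : K) ≠ k₀ := fun h => (mem_erase.1 hk).1 (Subtype.ext h)
      rw [Function.update_of_ne hne]
    linarith
  -- only the pair `φ₀`, `conj φ₀` contributes to the difference
  have hc : ComplexEmbedding.conjugate φ₀ ≠ φ₀ := by
    intro hc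
    have := (T k₀).isCMType φ₀
    rw [hc] at this
    tauto
  have h5 : ∑ φ : (T k₀).E →+* ℂ, (a k₀ φ * (if φ ∈ (T k₀).Φ then 1 else -1) -
      a k₀ φ * (if φ ∈ swp (T k₀).Φ φ₀ then 1 else -1)) = 0 := by
    rw [sum_sub_distrib, h3, sub_self]
  rw [← Finset.sum_subset (subset_univ {φ₀, ComplexEmbedding.conjugate φ₀}) (fun φ _ hφ => by
    rw [mem_insert, mem_singleton] at hφ
    have : φ ∈ swp (T k₀).Φ φ₀ ↔ φ ∈ (T k₀).Φ := by
      unfold swp
      rw [Set.mem_ofPred_eq, if_neg hφ]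
    rw [if_congr this rfl rfl, sub_self]), Finset.sum_pair hc.symm] at h5
  have h6 : φ₀ ∈ swp (T k₀).Φ φ₀ ↔ φ₀ ∉ (T k₀).Φ := by
    unfold swp
    rw [Set.mem_ofPred_eq, if_pos (Or.inl rfl)]
  have h7 : ComplexEmbedding.conjugate φ₀ ∈ swp (T k₀).Φ φ₀ ↔ φ₀ ∈ (T k₀).Φ := by
    unfold swp
    rw [Set.mem_ofPred_eq, if_pos (Or.inr rfl), ← (T k₀).isCMType φ₀]
  have h8 : ComplexEmbedding.conjugate φ₀ ∈ (T k₀).Φ ↔ φ₀ ∉ (T k₀).Φ := by
    rw [(T k₀).isCMType φ₀, not_not]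
  show a k₀ (ComplexEmbedding.conjugate φ₀) = a k₀ φ₀
  by_cases h9 : φ₀ ∈ (T k₀).Φ
  · rw [if_pos h9, if_neg (fun h => h6.1 h h9), if_neg (fun h => h8.1 h h9), if_pos (h7.2 h9)] at h5
    linarith
  · rw [if_neg h9, if_pos (h6.2 h9), if_pos (h8.2 h9), if_neg (fun h => h9 (h7.1 h))] at h5
    linarith

/-- CM subfields of a Galois CM field of degree at most six -/
theorem sub_gal {E L : Type} [Field E] [NumberField E] [IsCMField E] [Field L] [NumberField L]
    [IsCMField L] [IsGalois ℚ L] (f : E →+* L) (hL : finrank ℚ L ≤ 6) :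
    finrank ℚ E ≤ 6 ∧ IsGalois ℚ E := by
  let _ : Algebra E L := f.toAlgebra
  have : IsScalarTower ℚ E L := IsScalarTower.of_algebraMap_eq' (Subsingleton.elim _ _)
  have : Module.Finite E L := Module.Finite.of_restrictScalars_finite ℚ E L
  have h1 : finrank ℚ E * finrank E L = finrank ℚ L := Module.finrank_mul_finrank ℚ E L
  have hE : finrank ℚ E = 2 * InfinitePlace.nrComplexPlaces E := IsTotallyComplex.finrank E
  have hd : 0 < finrank E L := finrank_pos
  have he : 0 < finrank ℚ E := finrank_pos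
  rcases Nat.lt_or_ge (finrank E L) 2 with h2 | h2
  · have h3 : finrank E L = 1 := by omega
    rw [h3, mul_one] at h1
    refine ⟨h1.trans_le hL, ?_⟩
    have hinj : Function.Injective (f.toRatAlgHom.toLinearMap) := f.injective
    have hsur := (LinearMap.injective_iff_surjective_of_finrank_eq_finrank h1).1 hinj
    have e : E ≃ₐ[ℚ] L := AlgEquiv.ofBijective f.toRatAlgHom ⟨hinj, hsur⟩
    exact IsGalois.of_algEquiv e.symm
  · obtain ⟨c, hc⟩ : ∃ c, c = InfinitePlace.nrComplexPlaces E := ⟨_, rfl⟩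
    obtain ⟨d, hd'⟩ : ∃ d, d = finrank E L := ⟨_, rfl⟩
    rw [← hc] at hE
    rw [hE, ← hd'] at h1
    rw [← hd'] at h2
    have h3 : c = 1 := by
      have h4 : 2 * c * 2 ≤ 2 * c * d := Nat.mul_le_mul_left _ h2
      omega
    rw [h3] at hE
    refine ⟨by omega, ?_⟩
    have : Algebra.IsQuadraticExtension ℚ E := { finrank_eq_two' := hE }
    infer_instance

section blk
variable {K J : Type} [Fintype K] (T : K → CMPair) (b : K → J) (P : K1 T b → CMPair)
  [Fintype (K1 T b)]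

open Pool.Agent.W547.UB (GoodBlock IndependentBlocks)

/-- the dimension of a block -/
theorem dim_blk (j : J) (F : Finset K) (hF : ∀ k, k ∈ F ↔ k ∈ {k | b k = j})
    (h6 : ∑ k ∈ F, finrank ℚ (T k).E ≤ 6) (hn : ∀ j' : K1 T b, (j' : J) = j →
      finrank ℚ (P j').E = 2) [Fintype {k // b1 T b k = j}] :
    finrank ℚ (Pool.Agent.W547.KB.CMAV.H1 ⟨{k // b1 T b k = j}, fun k => T1 T b P k⟩) ≤ 10 := by
  classical
  have h1 : finrank ℚ (Pool.Agent.W547.KB.CMAV.H1 ⟨{k // b1 T b k = j}, fun k => T1 T b P k⟩) =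
      ∑ k : {k // b1 T b k = j}, finrank ℚ (T1 T b P k).E := finrank_pi_fintype ℚ
  have h2 : ∑ k : {k // b1 T b k = j}, finrank ℚ (T1 T b P k).E =
      ∑ k ∈ univ.filter (fun k => b1 T b k = j), finrank ℚ (T1 T b P k).E :=
    (Finset.sum_subtype (univ.filter fun k => b1 T b k = j) (fun x => by
      rw [mem_filter]
      exact ⟨fun h => h.2, fun h => ⟨mem_univ _, h⟩⟩) fun k => finrank ℚ (T1 T b P k).E).symm
  have h3 : ∑ k ∈ univ.filter (fun k : K => b k = j), finrank ℚ (T k).E =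
      ∑ k ∈ F, finrank ℚ (T k).E := by
    refine sum_congr ?_ fun _ _ => rfl
    ext k
    rw [mem_filter, hF]
    exact ⟨fun h => h.2, fun h => ⟨mem_univ _, h⟩⟩
  have h4 : ∑ j' ∈ univ.filter (fun j' : K1 T b => (j' : J) = j), finrank ℚ (P j').E ≤ 2 := by
    have h5 : (univ.filter (fun j' : K1 T b => (j' : J) = j)).card ≤ 1 := by
      rw [card_le_one]
      intro x hx y hy
      exact Subtype.ext ((mem_filter.1 hx).2.trans (mem_filter.1 hy).2.symm)
    calc ∑ j' ∈ univ.filter (fun j' : K1 T b => (j' : J) = j), finrank ℚ (P j').E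
        = ∑ j' ∈ univ.filter (fun j' : K1 T b => (j' : J) = j), 2 :=
          sum_congr rfl fun j' hj' => hn j' (mem_filter.1 hj').2
      _ = (univ.filter (fun j' : K1 T b => (j' : J) = j)).card * 2 := by
          rw [sum_const, smul_eq_mul]
      _ ≤ 2 := by omega
  rw [h1, h2, sum_filter, Fintype.sum_sum_type, ← sum_filter, ← sum_filter]
  have h6' : ∑ k ∈ univ.filter (fun k : K => b1 T b (Sum.inl k) = j), finrank ℚ (T1 T b P (Sum.inl k)).E ≤ 6 :=
    h3.trans_le h6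
  have h7 : ∑ j' ∈ univ.filter (fun j' : K1 T b => b1 T b (Sum.inr j') = j),
    finrank ℚ (T1 T b P (Sum.inr j')).E ≤ 2 := h4
  omega

theorem good_blk (hP : ∀ j : K1 T b, WiP T b j (P j))
    (C : CMAV) (q : C.I → K ⊕ K1 T b) (hq : ∀ i, C.factor i = T1 T b P (q i)) (j : J) :
    GoodBlock C {i | b1 T b (q i) = j} := by
  classical
  have hf : ∀ F : Finset K, (∀ k, k ∈ F ↔ k ∈ {k | b k = j}) →
      ∑ k ∈ F, finrank ℚ (T k).E ≤ 6 → GoodBlock C {i | b1 T b (q i) = j} := by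
    intro F hF h6
    refine .five ⟨{k // b1 T b k = j}, fun k => T1 T b P k⟩ ?_ fun i hi => ⟨⟨q i, hi⟩,
      sameType_of_eq (hq i)⟩
    exact dim_blk T b P j F hF h6 fun j' hj' => by
      obtain ⟨-, -, -, h, -⟩ := hP j'
      exact h
  by_cases hj : NoP T b j
  · have hin : ∀ i, b1 T b (q i) = j → ∃ k, b k = j ∧ C.factor i = T k := by
      intro i hi
      have h1 := hq i
      rcases h : q i with k | j'
      · rw [h] at h1 hi
        exact ⟨k, hi, h1⟩
      · rw [h] at hi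
        have h2 : (j' : J) = j := hi
        exact absurd (h2 ▸ hj) j'.2
    rcases hj with h | ⟨L, i1, i2, i3, h, hL⟩ | ⟨F, hF, h6, -⟩
    · refine .nondegenerate ⟨{k // b k = j}, fun k => T k⟩ (nondeg T b j h) fun i hi => ?_
      obtain ⟨k, hk, h1⟩ := hin i hi
      exact ⟨⟨k, hk⟩, sameType_of_eq h1⟩
    · obtain ⟨h1, h2, h3⟩ := h
      have h4 : ∀ i, b1 T b (q i) = j → finrank ℚ (C.factor i).E ≤ 6 ∧
          IsGalois ℚ (C.factor i).E := by
        intro i hi
        obtain ⟨k, hk, h5⟩ := hin i hi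
        rw [h5]
        obtain ⟨f⟩ := h2 k hk
        exact sub_gal f hL
      exact .small (fun i hi => (h4 i hi).1) fun i hi k _ _ => Or.inl (h4 i hi).2
    · exact hf F hF h6
  · obtain ⟨F, hF, h6, -⟩ := hP ⟨j, hj⟩
    exact hf F hF h6

theorem indep (hI : IndB (T1 T b P) (b1 T b)) (C : CMAV) (q : C.I → K ⊕ K1 T b)
    (hq : ∀ i, C.factor i = T1 T b P (q i)) (j : J) : ∃ τ : ℂ ≃+* ℂ, ∀ i,
    ∀ φ : (C.factor i).E →+* ℂ, (b1 T b (q i) = j → (τ : ℂ →+* ℂ).comp φ =
      ComplexEmbedding.conjugate φ) ∧ (b1 T b (q i) ≠ j → (τ : ℂ →+* ℂ).comp φ = φ) := by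
  classical
  obtain ⟨σ, hσ⟩ := hI fun j' => if j' = j then (starRingAut : ℂ ≃+* ℂ) else RingEquiv.refl ℂ
  have h1 : ∀ (A : CMPair) (k : K ⊕ K1 T b), A = T1 T b P k → ∀ φ : A.E →+* ℂ,
      (σ : ℂ →+* ℂ).comp φ = (((if b1 T b k = j then (starRingAut : ℂ ≃+* ℂ) else
        RingEquiv.refl ℂ) : ℂ ≃+* ℂ) : ℂ →+* ℂ).comp φ := by
    intro A k h
    subst h
    exact hσ k
  refine ⟨σ, fun i φ => ⟨fun h => ?_, fun h => ?_⟩⟩
  · rw [h1 _ _ (hq i) φ, if_pos h]
    ext x
    rfl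
  · rw [h1 _ _ (hq i) φ, if_neg h]
    ext x
    rfl

end blk

/-! ### The theorem -/

theorem t_COV : S_SPF → S_LOW → S_SPI → S_SPG → S_SPB → S_COV := by
  intro hSPF hLOW hSPI hSPG hSPB K J _ T b hI hOK
  classical
  have hfin := finK1 T b
  let _ : Fintype (K1 T b) := Fintype.ofFinite _
  have hex : ∀ j : K1 T b, ∃ P, WiP T b j P := fun j => wiP_of hLOW T b j (hOK j) j.2
  choose P hP using hex
  have hI' := ind1 T b P hI hP
  refine ⟨K ⊕ K1 T b, inferInstance, T1 T b P, fun k => ⟨Sum.inl k, rfl⟩, ?_, ?_⟩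
  · exact hSPB _ (b1 T b) hI' (sp1 T b P hSPF hSPI hSPG hP)
  · intro 𝒜 C hC
    choose q hq using hC
    have hb : Pool.Agent.W547.UB.IndependentBlocks C (fun i => b1 T b (q i)) :=
      ⟨fun j => good_blk T b P hP C q hq j, fun j => indep T b P hI' C q hq j⟩
    intro κ _ f hf
    have h1 := (Pool.Agent.W547.UB.isHodge_iff_ring_blocks C _ hb f).1 hf
    have h2 := Pool.Agent.R915.ring_alg 𝒜 h1 (Pool.Agent.N830.HC.av C) LinearMap.id
      LinearMap.id (fun v => rfl)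
    refine Eq.mp (congrArg (𝒜.A (Pool.Agent.N830.HC.av C) κ) ?_) h2
    ext v
    rfl

end

end Pool.Agent.N492.HX
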